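import Pool.Agent.Work.MP_db9399_hc.Interface
import Pool.Agent.Work.MP_db9399_bg_helper83.Env0

/-! MP_db9399, host core, block T1H (from T1 of LC). -/

set_option autoImplicit false

namespace Pool.Agent.Work.MP_db9399_hc.helper34

open Finset Classical
open Pool.Agent.Work.MP_db9399_all (nb)
open Pool.Agent.Work.MP_db9399_px (LWalk hit ee)
open Pool.Agent.Work.MP_db9399_sc (cut Crit Conn Env Fam Rnd Hv)
open Pool.Agent.Work.MP_db9399_bg (den cl LabP Good PN IsPat en enP Sep Near REnv r0 Deep Spr Ok)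
open Pool.Agent.Work.MP_db9399_bg.helper83 (cl_univ)
open Pool.Agent.Work.MP_db9399_lc (BL)
open Pool.Agent.Work.MP_db9399_hc

universe u

theorem den_univ_le {T : Type} [Fintype T] : den (univ : Finset T) ≤ 1 := by
  unfold den
  rw [card_univ]
  exact div_self_le_one _

theorem den_nonneg {T : Type} [Fintype T] (P : Finset T) : 0 ≤ den P := by
  unfold den; positivity

/-- a set with a small cut is large -/
theorem large_of_closed {V : Type u} [Fintype V] {T : Type} [Fintype T] {g ε ε0 b : ℝ}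
    {G : SimpleGraph V} {D : ℕ} {lab : V → T} {Y : Finset V} (hε : 0 ≤ ε) (hεg : ε < g)
    (hD : 0 < D) (hY : Y.Nonempty) (hB : BH g ε0 b G D)
    (h : ∀ P' Q' : Finset T,
      ee G (Y ∩ cl lab P') (cl lab Q' \ Y) ≤ ε * (den P' * den Q') * D * Y.card) :
    b < Y.card := by
  by_contra hno
  push Not at hno
  have h1 := hB.nsc Y hno
  have h2 := h univ univ
  rw [cl_univ, inter_univ] at h2
  have hD' : (0 : ℝ) < D := by exact_mod_cast hD
  have hY' : (0 : ℝ) < Y.card := by exact_mod_cast hY.card_pos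
  have h3 : ∑ v ∈ Y, ((nb G v \ Y).card : ℝ) = ee G Y (univ \ Y) := by
    unfold ee
    refine sum_congr rfl fun v _ => ?_
    congr 2
    ext w
    simp only [mem_sdiff, mem_inter, mem_univ, true_and]
  rw [h3] at h1
  have h4 : den (univ : Finset T) * den (univ : Finset T) ≤ 1 := by
    have := den_univ_le (T := T)
    have := den_nonneg (univ : Finset T)
    nlinarith
  have h5 : ε * (den (univ : Finset T) * den (univ : Finset T)) * D * Y.card ≤
      ε * 1 * D * Y.card := by
    have h6 : ε * (den (univ : Finset T) * den (univ : Finset T)) ≤ ε * 1 :=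
      mul_le_mul_of_nonneg_left h4 hε
    exact mul_le_mul_of_nonneg_right (mul_le_mul_of_nonneg_right h6 hD'.le) hY'.le
  have h7 : ε * 1 * D * (Y.card : ℝ) < g * D * Y.card := by
    have h8 : ε * 1 * D < g * D := by nlinarith
    exact mul_lt_mul_of_pos_right h8 hY'
  linarith

/-- Block T1H. -/
theorem stmt_T1H (hT1 : MP_db9399_lc.Stmt_T1.{u}) : Stmt_T1H.{u} := by
  intro g ε n B L hg hε
  have hm : 0 < min ε (g / 2) := lt_min hε (by positivity)
  obtain ⟨δ, hδ, H⟩ := hT1 g (min ε (g / 2)) n B L hg hm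
  refine ⟨δ, hδ, fun M hM => ?_⟩
  obtain ⟨σ, c1, ε0, d0, hσ, hc1, hε0, H⟩ := H M hM
  refine ⟨σ, c1, ε0, d0 + 1, hσ, hc1, hε0, ?_⟩
  intro T β _ _ P R p b V _ G F D qq lab U J L' C hP hβ hT hd hB hb hL hE hq1 hq2 hLU hC hc
  obtain ⟨Y, hY1, hY2, hY3, hY4⟩ := H P R p G F D qq lab U J L' C hP hβ hT (by omega) (hB.bl hb)
    hL hE hq1 hq2 hLU hC hc
  have hD : (0 : ℝ) < D := by
    have : 0 < D := by omega
    exact_mod_cast this
  have hYpos : (0 : ℝ) < Y.card := lt_of_le_of_lt (by positivity) hY1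
  have hYne : Y.Nonempty := card_pos.mp (by exact_mod_cast hYpos)
  have hmε : min ε (g / 2) ≤ ε := min_le_left _ _
  have hmg : min ε (g / 2) < g := lt_of_le_of_lt (min_le_right _ _) (by linarith)
  refine ⟨Y, large_of_closed hm.le hmg (by omega) hYne hB hY2, ?_, ?_, ?_⟩
  · intro P' Q'
    refine (hY2 P' Q').trans ?_
    have h1 : min ε (g / 2) * (den P' * den Q') ≤ ε * (den P' * den Q') :=
      mul_le_mul_of_nonneg_right hmε (mul_nonneg (den_nonneg _) (den_nonneg _))
    exact mul_le_mul_of_nonneg_right (mul_le_mul_of_nonneg_right h1 hD.le) hYpos.le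
  · intro P'
    refine (hY3 P').trans ?_
    exact mul_le_mul_of_nonneg_right (mul_le_mul_of_nonneg_right hmε (den_nonneg _)) hYpos.le
  · intro x
    refine (hY4 x).trans ?_
    exact mul_le_mul_of_nonneg_right (mul_le_mul_of_nonneg_right hmε hP.p0.le) hYpos.le

end Pool.Agent.Work.MP_db9399_hc.helper34
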