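import Pool.Agent.Work.MP_db9399_hc.Interface
import Pool.Agent.Work.MP_db9399_lh_helper83.Deep0

/-! MP_db9399, host core: used vertices which are deep in a critical set. -/

set_option autoImplicit false

namespace Pool.Agent.Work.MP_db9399_hc.helper34

open Finset Classical
open Pool.Agent.Work.MP_db9399_all (nb)
open Pool.Agent.Work.MP_db9399_px (LWalk hit ee)
open Pool.Agent.Work.MP_db9399_sc (cut Crit Conn Env Fam Rnd Hv)
open Pool.Agent.Work.MP_db9399_bg (den cl LabP Good PN IsPat en enP Sep Near REnv r0 Deep Spr Ok)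
open Pool.Agent.Work.MP_db9399_lc (BL)
open Pool.Agent.Work.MP_db9399_hc

universe u

section
variable {V : Type u} [Fintype V]

/-- one family: at most `N |C ∩ Vg| / ((1 - g / 20) b)` vertices of `O` are deep in `C` -/
theorem used_oneH (hGROW : Stmt_GROWH.{u}) {g g' R b : ℝ} (hg : 0 < g) (hg1 : g ≤ 1 / 10)
    (hg' : 0 < g') (hR : 1 ≤ R) (hgR : 1000 * (R + 1) * g' ≤ g)
    (G G' GI : SimpleGraph V) (D D' DI N : ℕ) (hN : 0 < N) (hI1 : GI ≤ G) (hI2 : GI ≤ G')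
    (hB : BH g (g / 100) b GI DI) (hDD : (D : ℝ) + D' ≤ R * DI) (hbR : b ≤ R * DI)
    (Vg C O : Finset V) (hdeg : ∀ v, (1 - g / 100) * DI / N ≤ ((nb GI v ∩ Vg).card : ℝ))
    (hO : Spr g' G' D' N Vg O) :
    (1 - g / 20) * b * (((C ∩ Vg).filter (fun z => Deep g' G D N Vg C z ∧ z ∈ O)).card : ℝ) ≤
      N * ((C ∩ Vg).card : ℝ) := by
  obtain ⟨Cs, hdis, hz, h1⟩ := hO
  set S : Finset V := (C ∩ Vg).filter (fun z => Deep g' G D N Vg C z ∧ z ∈ O) with hS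
  have hex : ∀ z : V, ∃ C'' : Finset V, z ∈ S → C'' ∈ Cs ∧ z ∈ C'' ∧
      Deep g' G' D' N Vg C'' z := by
    intro z
    by_cases h : z ∈ S
    · obtain ⟨-, C'', h2, h3, h4⟩ := hz z (mem_filter.mp h).2.2
      exact ⟨C'', fun _ => ⟨h2, h3, h4⟩⟩
    · exact ⟨∅, fun h' => absurd h' h⟩
  choose f hf using hex
  have hdisj : ∀ z ∈ S, ∀ z' ∈ S, z ≠ z' →
      Disjoint (C ∩ f z ∩ Vg) (C ∩ f z' ∩ Vg) := by
    intro z hz1 z' hz2 hne
    have hfne : f z ≠ f z' := by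
      intro he
      have h3 := h1 (f z) (hf z hz1).1
      rw [card_le_one] at h3
      refine hne (h3 z ?_ z' ?_)
      · exact mem_inter.mpr ⟨(mem_filter.mp hz1).2.2, (hf z hz1).2.1⟩
      · rw [he]
        exact mem_inter.mpr ⟨(mem_filter.mp hz2).2.2, (hf z' hz2).2.1⟩
    have h4 := hdis _ (hf z hz1).1 _ (hf z' hz2).1 hfne
    refine disjoint_left.mpr fun x hx hx' => ?_
    rw [mem_inter, mem_inter] at hx hx'
    exact disjoint_left.mp h4 hx.1.2 hx'.1.2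
  have hsum : ∑ z ∈ S, (C ∩ f z ∩ Vg).card ≤ (C ∩ Vg).card := by
    rw [← card_biUnion hdisj]
    refine card_le_card fun x hx => ?_
    obtain ⟨z, -, h5⟩ := mem_biUnion.mp hx
    rw [mem_inter, mem_inter] at h5
    exact mem_inter.mpr ⟨h5.1.1, h5.2⟩
  have hlow : ∀ z ∈ S, (1 - g / 20) * b ≤ N * ((C ∩ f z ∩ Vg).card : ℝ) := by
    intro z hz1
    exact hGROW g g' R b hg hg1 hg' hR hgR G G' GI D D' DI N Vg C (f z) z hN hI1 hI2 hB hDD hbR
      hdeg (mem_filter.mp hz1).2.1 (hf z hz1).2.2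
  calc (1 - g / 20) * b * (S.card : ℝ) = ∑ z ∈ S, (1 - g / 20) * b := by
        rw [sum_const, nsmul_eq_mul]; ring
    _ ≤ ∑ z ∈ S, N * ((C ∩ f z ∩ Vg).card : ℝ) := sum_le_sum hlow
    _ = N * ((∑ z ∈ S, (C ∩ f z ∩ Vg).card : ℕ) : ℝ) := by
        rw [← mul_sum]; push_cast; ring
    _ ≤ _ := by
        refine mul_le_mul_of_nonneg_left ?_ (Nat.cast_nonneg _)
        exact_mod_cast hsum

/-- the used vertices which are deep in `C` -/
theorem used_deepH (hGROW : Stmt_GROWH.{u}) {h g g' R b : ℝ} (hg : 0 < g) (hgh : g ≤ h)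
    (hh1 : h ≤ 1 / 10) (hg' : 0 < g') (hR : 1 ≤ R) (hgR : 1000 * (R + 1) * g' ≤ g)
    {ι : Type} (Hs : ι → SimpleGraph V) (Ds : ι → ℕ) (Dm : ι → ι → ℕ) (κ : ι) (N : ℕ)
    (hN : 0 < N) (hB : ∀ j, BH g (g / 100) b (Hs κ ⊓ Hs j) (Dm κ j))
    (hDD : ∀ j, (Ds κ : ℝ) + Ds j ≤ R * Dm κ j) (hbR : ∀ j, b ≤ R * Dm κ j)
    (Vg C : Finset V)
    (hdeg : ∀ j v, (1 - g / 100) * Dm κ j / N ≤ ((nb (Hs κ ⊓ Hs j) v ∩ Vg).card : ℝ))
    (lg dd : ℕ) (hi : ℕ → ι) (Oi : ℕ → Finset V) (hlg : lg * N ≤ dd) (hb : (1 + h) * dd ≤ b)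
    (hO : ∀ j < lg, Spr g' (Hs (hi j)) (Ds (hi j)) N Vg (Oi j)) :
    (1 + h / 2) * (((C ∩ Vg).filter
      (fun z => Deep g' (Hs κ) (Ds κ) N Vg C z ∧ ∃ j < lg, z ∈ Oi j)).card : ℝ) ≤
      ((C ∩ Vg).card : ℝ) := by
  set S : Finset V := (C ∩ Vg).filter
    (fun z => Deep g' (Hs κ) (Ds κ) N Vg C z ∧ ∃ j < lg, z ∈ Oi j) with hS
  rcases Nat.eq_zero_or_pos lg with hl0 | hl0
  · have hS0 : S = ∅ := by
      rw [hS, hl0]
      ext z
      simp
    rw [hS0]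
    simp
  have hdd : 0 < dd := lt_of_lt_of_le (Nat.mul_pos hl0 hN) hlg
  have hdd' : (0 : ℝ) < dd := by exact_mod_cast hdd
  have hsub : S ⊆ (range lg).biUnion fun j =>
      (C ∩ Vg).filter (fun z => Deep g' (Hs κ) (Ds κ) N Vg C z ∧ z ∈ Oi j) := by
    intro z hz
    obtain ⟨h1, h2, i, h3, h4⟩ := mem_filter.mp hz
    exact mem_biUnion.mpr ⟨i, mem_range.mpr h3, mem_filter.mpr ⟨h1, h2, h4⟩⟩
  have h1 : (S.card : ℝ) ≤ ∑ j ∈ range lg,
      (((C ∩ Vg).filter (fun z => Deep g' (Hs κ) (Ds κ) N Vg C z ∧ z ∈ Oi j)).card : ℝ) := by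
    have := (card_le_card hsub).trans card_biUnion_le
    exact_mod_cast this
  have hcoef : (1 + h / 2) * dd ≤ (1 - g / 20) * b := by
    have h2 : (1 - g / 20) * ((1 + h) * dd) ≤ (1 - g / 20) * b :=
      mul_le_mul_of_nonneg_left hb (by linarith)
    have h3 : (1 + h / 2) ≤ (1 - g / 20) * (1 + h) := by nlinarith
    have h4 : (1 + h / 2) * dd ≤ (1 - g / 20) * (1 + h) * dd :=
      mul_le_mul_of_nonneg_right h3 hdd'.le
    linarith
  have h2 : (1 + h / 2) * dd * (S.card : ℝ) ≤ dd * ((C ∩ Vg).card : ℝ) := by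
    calc (1 + h / 2) * dd * (S.card : ℝ) ≤ (1 - g / 20) * b * (S.card : ℝ) :=
          mul_le_mul_of_nonneg_right hcoef (Nat.cast_nonneg _)
      _ ≤ (1 - g / 20) * b * ∑ j ∈ range lg,
          (((C ∩ Vg).filter (fun z => Deep g' (Hs κ) (Ds κ) N Vg C z ∧ z ∈ Oi j)).card : ℝ) := by
          refine mul_le_mul_of_nonneg_left h1 (le_trans ?_ hcoef)
          have : 0 < h := lt_of_lt_of_le hg hgh
          positivity
      _ = ∑ j ∈ range lg, (1 - g / 20) * b *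
          (((C ∩ Vg).filter (fun z => Deep g' (Hs κ) (Ds κ) N Vg C z ∧ z ∈ Oi j)).card : ℝ) := by
          rw [mul_sum]
      _ ≤ ∑ j ∈ range lg, N * ((C ∩ Vg).card : ℝ) := by
          refine sum_le_sum fun j hj => ?_
          exact used_oneH hGROW hg (hgh.trans hh1) hg' hR hgR (Hs κ) (Hs (hi j))
            (Hs κ ⊓ Hs (hi j)) (Ds κ) (Ds (hi j)) (Dm κ (hi j)) N hN inf_le_left inf_le_right
            (hB _) (hDD _) (hbR _) Vg C (Oi j) (hdeg _) (hO j (mem_range.mp hj))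
      _ = ((lg * N : ℕ) : ℝ) * ((C ∩ Vg).card : ℝ) := by
          rw [sum_const, nsmul_eq_mul, card_range]; push_cast; ring
      _ ≤ _ := by
          refine mul_le_mul_of_nonneg_right ?_ (Nat.cast_nonneg _)
          exact_mod_cast hlg
  have h3 : dd * ((1 + h / 2) * (S.card : ℝ)) ≤ dd * ((C ∩ Vg).card : ℝ) := by
    calc _ = (1 + h / 2) * dd * (S.card : ℝ) := by ring
      _ ≤ _ := h2
  exact le_of_mul_le_mul_left h3 hdd'

theorem BH_mono {g ε ε' b : ℝ} {G : SimpleGraph V} {D : ℕ} (h : BH g ε b G D) (he : ε ≤ ε') :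
    BH g ε' b G D where
  deg := h.deg
  low v := by
    have h1 := h.low v
    have h2 : (0 : ℝ) ≤ (ε' - ε) * D := mul_nonneg (by linarith) (Nat.cast_nonneg _)
    nlinarith
  bip := h.bip
  nsc := h.nsc
  big := h.big

theorem Hosts_mono {g ε ε' σ σ' c1 c1' b R : ℝ} {T : Type} [Fintype T] {ι : Type}
    {Hs : ι → SimpleGraph V} {Ds : ι → ℕ} {Dm : ι → ι → ℕ} {lab : V → T}
    (h : Hosts g ε σ c1 b R Hs Ds Dm lab) (hε : ε ≤ ε') (hσ : σ ≤ σ') (hc : c1 ≤ c1') :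
    Hosts g ε' σ' c1' b R Hs Ds Dm lab where
  bh i := BH_mono (h.bh i) hε
  lb i := (h.lb i).mono hσ hc
  bh2 i j := BH_mono (h.bh2 i j) hε
  lb2 i j := (h.lb2 i j).mono hσ hc
  b1 := h.b1
  rat := h.rat
  ratb := h.ratb

end

end Pool.Agent.Work.MP_db9399_hc.helper34
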