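import Pool.Agent.Work.MP_db9399_hc_helper34.T1H
import Pool.Agent.Work.MP_db9399_hc_helper34.Used
import Pool.Agent.Work.MP_db9399_lh_helper29.CAPE

/-! MP_db9399, host core, block CAPEH: the last rounds (from helper29's CAPE of LCH). -/

set_option autoImplicit false

namespace Pool.Agent.Work.MP_db9399_hc.helper34

open Finset Classical
open Pool.Agent.Work.MP_db9399_lh (Lh Cr ce su kp io sp pt cr cy rf rx rr tj ty inM rP rR np nr eP
  pr qr qe Vq Stmt_PAT card_zmod card_Lh)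
open Pool.Agent.Work.MP_db9399_bg (den cl LabP Good PN IsPat en enP Sep Near REnv r0 Deep Spr Ok
  Lbl bx c3f c3 rs rs_symm eR HPre Ix mem_nb mem_cl Stmt_DEEPF)
open Pool.Agent.Work.MP_db9399_bg.helper83 (cl_univ)
open Pool.Agent.Work.MP_db9399_lc (BL)
open Pool.Agent.Work.MP_db9399_lc.helper29 (Wm card_Wm final_ineq2)
open Pool.Agent.Work.MP_db9399_lh.helper29 (qlab Vq_eq mem_Vq den_qlab plab mem_plab den_plab mlab
  mem_mlab den_mlab cell_deg deep_count mem_eP near_part sum_cells)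
open Pool.Agent.Work.MP_db9399_all (nb)
open Pool.Agent.Work.MP_db9399_px (LWalk hit ee)
open Pool.Agent.Work.MP_db9399_dn (NB IsMat Tot)
open Pool.Agent.Work.MP_db9399_sc (cut Crit Conn Env Fam Rnd Hv)
open Pool.Agent.Work.MP_db9399_hc

universe u

/-- degrees into one part of a cell -/
theorem cell_degI {V : Type u} [Fintype V] {l m r K K1 S : ℕ} {G : SimpleGraph V} {d : ℕ}
    {σ c1 ε0 g b : ℝ} {lab : V → Lh l m r K K1 S}
    (hL : LabP G d σ c1 lab) (hBG : BH g ε0 b G d) (hε : ε0 ≤ g / 200)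
    (hσ : σ * (3 * (2 * (m : ℝ) + 1)) ≤ g / 200) (a : ZMod (2 * m + 1)) (i : ZMod 3) (v : V) :
    (1 - g / 100) * d / ((3 * (2 * m + 1) : ℕ) : ℝ) ≤ ((nb G v ∩ Vq lab a i).card : ℝ) := by
  have h1 := hL.deg v (qlab a i)
  rw [← Vq_eq, den_qlab, abs_le] at h1
  have h3 := hBG.low v
  set N : ℝ := 3 * (2 * (m : ℝ) + 1) with hNdef
  have hN : (0 : ℝ) < N := by positivity
  have hd0 : (0 : ℝ) ≤ d := Nat.cast_nonneg _
  push_cast
  rw [← hNdef]
  obtain ⟨h4, -⟩ := h1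
  have h6 : 1 / N * ((nb G v).card : ℝ) = ((nb G v).card : ℝ) / N := by ring
  rw [h6] at h4
  have h7 : σ * d * N ≤ g / 200 * d := by
    calc σ * d * N = σ * N * d := by ring
      _ ≤ _ := mul_le_mul_of_nonneg_right hσ hd0
  have h8 : (nb G v).card / N * N = ((nb G v).card : ℝ) := by
    field_simp
  have h9 : ε0 * d ≤ g / 200 * d := mul_le_mul_of_nonneg_right hε hd0
  rw [div_le_iff₀ hN]
  have h10 : ((nb G v).card / N - σ * d) * N ≤
      ((nb G v ∩ Vq lab a i).card : ℝ) * N :=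
    mul_le_mul_of_nonneg_right (by linarith) hN.le
  rw [sub_mul, h8] at h10
  linarith

theorem stmt_CAPEH (hT1 : Stmt_T1H.{u}) (hPAT : Stmt_PAT)
    (hGROW : Stmt_GROWH.{u}) (hDEEPF : Stmt_DEEPF.{u}) : Stmt_CAPEH.{u} := by
  intro hh hh0 hh1
  refine ⟨⌈100 / hh⌉₊ + 2, ?_⟩
  intro l g g' R hl hg hgh hg' hR hgR
  have hg1 : g ≤ 1 / 10 := hgh.trans hh1
  obtain ⟨κ, hκ0, hκ⟩ := hDEEPF g' hg'
  set ε : ℝ := hh / (40 * (4 + 2 * κ)) with hεdef
  have hε0 : 0 < ε := by positivity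
  have hε1 : ε * (4 + 2 * κ) ≤ hh / 40 := by
    rw [hεdef]
    have : (4 + 2 * κ) ≠ 0 := by positivity
    field_simp
    exact le_rfl
  have hl2 : 2 ≤ l := by omega
  have hlg : 200 ≤ hh * (2 * (l : ℝ) + 1) := by
    have h1 : (100 / hh : ℝ) ≤ l := by
      have h2 : ((⌈100 / hh⌉₊ : ℕ) : ℝ) ≤ l := by
        exact_mod_cast (show ⌈100 / hh⌉₊ ≤ l by omega)
      exact (Nat.le_ceil _).trans h2
    rw [div_le_iff₀ hh0] at h1
    nlinarith
  have hε20 : 0 < ε / 2 := by positivity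
  obtain ⟨δ1, hδ1, hT1'⟩ := hT1 g (ε / 2) 2 (2 * l + 1) (2 * l + 1) hg hε20
  refine ⟨δ1, hδ1, ?_⟩
  intro m r K K1 S hm
  have hM : 0 < Fintype.card (Lh l m r K K1 S) := by rw [card_Lh]; positivity
  obtain ⟨σ1, c11, ε1, d1, hσ1, hc11, hε1', HT1⟩ := hT1' (Fintype.card (Lh l m r K K1 S)) hM
  obtain ⟨-, hPat⟩ := hPAT l m r K K1 S hl2 hm
  set N : ℝ := 3 * (2 * (m : ℝ) + 1) with hN
  set Λ : ℝ := 2 * (l : ℝ) + 1 with hΛ
  have hN0 : 0 < N := by positivity
  have hΛ0 : 0 < Λ := by positivity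
  set σ : ℝ := min σ1 (g / (200 * N)) with hσdef
  have hσ0 : 0 < σ := lt_min hσ1 (by positivity)
  set ε0 : ℝ := min ε1 (g / 200) with hε0def
  have hε00 : 0 < ε0 := lt_min hε1' (by positivity)
  refine ⟨σ, c11, ε0, d1 + 1, hσ0, hc11, hε00, ?_⟩
  intro V _ ι Hs Ds Dm b dd lab hdall hHost hbdd
  intro κh i F U L C qq lg hi Oi hE hqq1 hqq2 hLU hcrit hconn hlgN hO
  set G : SimpleGraph V := Hs κh with hG
  set d : ℕ := Ds κh with hdd
  have hd : d1 + 1 ≤ d := hdall κh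
  have hBH : BH g ε0 b G d := hHost.bh κh
  have hb1 : (1 + g) * d ≤ b := hHost.b1 κh
  have hBG : BL g ε0 G d := hBH.bl hb1
  have hLab : LabP G d σ c11 lab := hHost.lb κh
  have hd1 : d1 ≤ d := by omega
  have hd0 : 0 < d := by omega
  have hdR : (0 : ℝ) < d := by exact_mod_cast hd0
  set q : ℝ := qe l d with hq
  have hqe : q = 2 * (d : ℝ) / (3 * Λ) := by rw [hq, qe]
  have hqn : ((2 : ℕ) : ℝ) * (1 / (3 * (2 * (l : ℝ) + 1))) * (d : ℝ) = q := by
    rw [hqe]; push_cast; rw [← hΛ]; ring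
  have hq0 : 0 < q := by rw [hqe]; positivity
  have hσN : σ * N ≤ g / 200 := by
    have h1 : σ ≤ g / (200 * N) := min_le_right _ _
    calc σ * N ≤ g / (200 * N) * N := mul_le_mul_of_nonneg_right h1 hN0.le
      _ = g / 200 := by field_simp
  have hε0g : ε0 ≤ g / 200 := min_le_right _ _
  have hBH1 : BH g ε1 b G d := BH_mono hBH (min_le_left _ _)
  have hLab1 : LabP G d σ1 c11 lab := hLab.mono (min_le_left _ _) le_rfl
  have hcell := cell_deg hLab hBG hε0g hg1 hσN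
  have hσN' : min σ1 (g / (200 * N)) * N ≤ g / 200 := hσN
  obtain ⟨Y, hY1, hY2, hY3, hY4⟩ := HT1 (eP l m r K K1 S i) (eR l)
    (1 / (3 * (2 * (l : ℝ) + 1))) b G F d qq lab U ∅ L C (hPat i) (by rw [ZMod.card]) rfl hd1
    hBH1 hb1 hLab1 (by rw [hqn]; exact hE) (by rw [hqn]; exact hqq1)
    (by rw [hqn]; exact hqq2) hLU hcrit hconn
  have hb0 : (0 : ℝ) ≤ b := le_trans (by positivity) hb1
  have hYpos : (0 : ℝ) < Y.card := lt_of_le_of_lt hb0 hY1
  set y : ℝ := (Y.card : ℝ) / 3 with hy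
  have hy0 : 0 < y := by positivity
  have hCi : C ⊆ cl lab (plab i) := by
    intro v hv
    have hvU : v ∈ U := hLU (hcrit.1 hv)
    obtain ⟨b, hb⟩ := hE.UP v hvU (by simp)
    rw [mem_eP] at hb
    rw [mem_cl, mem_plab]
    exact hb.2
  have hCC : C ∩ cl lab (plab i) = C := inter_eq_left.mpr hCi
  have hsd : ((C \ Y).card : ℝ) + (((Y ∩ cl lab (plab i)) \ C).card : ℝ) ≤ ε / 2 * y := by
    have h1 := near_part hY4
    rw [hCC] at h1
    refine h1.trans (le_of_eq ?_)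
    rw [hy, ← hΛ]
    field_simp
  have hsd1 : (0 : ℝ) ≤ ((C \ Y).card : ℝ) := Nat.cast_nonneg _
  have hsd2 : (0 : ℝ) ≤ (((Y ∩ cl lab (plab i)) \ C).card : ℝ) := Nat.cast_nonneg _
  have hεy : 0 < ε * y := by positivity
  have hcv : (C.card : ℝ) ≤ (1 + ε) * y := by
    have h0 := hY3 (plab i)
    rw [den_plab, abs_le] at h0
    have : C ⊆ (Y ∩ cl lab (plab i)) ∪ (C \ Y) := by
      intro v hv
      by_cases hvY : v ∈ Y
      · exact mem_union_left _ (mem_inter.mpr ⟨hvY, hCi hv⟩)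
      · exact mem_union_right _ (mem_sdiff.mpr ⟨hv, hvY⟩)
    have h2 : (C.card : ℝ) ≤ ((Y ∩ cl lab (plab i)).card : ℝ) + ((C \ Y).card : ℝ) := by
      exact_mod_cast (card_le_card this).trans (card_union_le _ _)
    have h3 : 1 / 3 * (Y.card : ℝ) = y := by rw [hy]; ring
    have h4 : ε / 2 * (1 / 3) * (Y.card : ℝ) = ε / 2 * y := by rw [hy]; ring
    rw [h3, h4] at h0
    linarith [h0.2]
  have hx1 : y * ((2 * (l : ℝ) - 3) / Λ - 2 * ε) ≤
      ((C.filter (fun z => inM (lab z))).card : ℝ) := by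
    have h1 := hY3 (mlab i)
    rw [den_mlab hl2, ← hΛ, abs_le] at h1
    have h2 : ((Y ∩ cl lab (mlab i)).card : ℝ) ≤
        ((C.filter (fun z => inM (lab z))).card : ℝ) +
          (((Y ∩ cl lab (plab i)) \ C).card : ℝ) := by
      have : Y ∩ cl lab (mlab i) ⊆
          (C.filter (fun z => inM (lab z))) ∪ ((Y ∩ cl lab (plab i)) \ C) := by
        intro v hv
        rw [mem_inter, mem_cl, mem_mlab] at hv
        by_cases hvC : v ∈ C
        · exact mem_union_left _ (mem_filter.mpr ⟨hvC, hv.2.2⟩)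
        · refine mem_union_right _ (mem_sdiff.mpr ⟨mem_inter.mpr ⟨hv.1, ?_⟩, hvC⟩)
          rw [mem_cl, mem_plab]
          exact hv.2.1
      exact_mod_cast (card_le_card this).trans (card_union_le _ _)
    have h5 : (2 * (l : ℝ) - 3) / Λ ≤ 1 := by
      rw [div_le_one hΛ0, hΛ]
      linarith
    have h4 : ε / 2 * (1 / 3 * ((2 * (l : ℝ) - 3) / Λ)) * (Y.card : ℝ) ≤ ε / 2 * y := by
      calc ε / 2 * (1 / 3 * ((2 * (l : ℝ) - 3) / Λ)) * (Y.card : ℝ) =
          ε / 2 * y * ((2 * (l : ℝ) - 3) / Λ) := by rw [hy]; ring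
        _ ≤ ε / 2 * y * 1 := mul_le_mul_of_nonneg_left h5 (by positivity)
        _ = ε / 2 * y := mul_one _
    have h3 : 1 / 3 * ((2 * (l : ℝ) - 3) / Λ) * (Y.card : ℝ) =
        y * ((2 * (l : ℝ) - 3) / Λ) := by rw [hy]; ring
    rw [h3] at h1
    have h6 : y * ((2 * (l : ℝ) - 3) / Λ - 2 * ε) =
        y * ((2 * (l : ℝ) - 3) / Λ) - 2 * (ε * y) := by ring
    rw [h6]
    linarith [h1.1]
  -- not deep
  have hb1 : ((C.filter (fun v => ¬ Deep g' G d (3 * (2 * m + 1))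
      (Vq lab (ce (lab v)) i) C v)).card : ℝ) ≤ (1 + 2 * κ) * ε * y := by
    have hsub : C.filter (fun v => ¬ Deep g' G d (3 * (2 * m + 1))
        (Vq lab (ce (lab v)) i) C v) ⊆
        (C \ Y) ∪ (univ : Finset (ZMod (2 * m + 1))).biUnion fun a =>
          (Y ∩ Vq lab a i).filter
            (fun v => ¬ Deep g' G d (3 * (2 * m + 1)) (Vq lab a i) C v) := by
      intro v hv
      obtain ⟨h1, h2⟩ := mem_filter.mp hv
      by_cases hvY : v ∈ Y
      · refine mem_union_right _ (mem_biUnion.mpr ⟨ce (lab v), mem_univ _,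
          mem_filter.mpr ⟨?_, h2⟩⟩)
        have h3 := hCi h1
        rw [mem_cl, mem_plab] at h3
        exact mem_inter.mpr ⟨hvY, mem_Vq.mpr ⟨rfl, h3⟩⟩
      · exact mem_union_left _ (mem_sdiff.mpr ⟨h1, hvY⟩)
    have h1 : ((C.filter (fun v => ¬ Deep g' G d (3 * (2 * m + 1))
        (Vq lab (ce (lab v)) i) C v)).card : ℝ) ≤
        ((C \ Y).card : ℝ) + ∑ a : ZMod (2 * m + 1), (((Y ∩ Vq lab a i).filter
          (fun v => ¬ Deep g' G d (3 * (2 * m + 1)) (Vq lab a i) C v)).card : ℝ) := by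
      have h2 := (card_le_card hsub).trans ((card_union_le _ _).trans
        (Nat.add_le_add_left card_biUnion_le _))
      exact_mod_cast h2
    have h2 : ∀ a : ZMod (2 * m + 1), (((Y ∩ Vq lab a i).filter
          (fun v => ¬ Deep g' G d (3 * (2 * m + 1)) (Vq lab a i) C v)).card : ℝ) ≤
        κ * (ε / 2 * Y.card / N + ((((Y ∩ cl lab (plab i)) \ C) ∩ Vq lab a i).card : ℝ)) := by
      intro a
      have h3 := deep_count (C := C) hd0 hε20.le hκ (fun v => hBG.deg v) a i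
        (fun v => (hcell a i v).2) hY2
      have h4 : (Y ∩ Vq lab a i) \ C = ((Y ∩ cl lab (plab i)) \ C) ∩ Vq lab a i := by
        ext v
        simp only [mem_sdiff, mem_inter, mem_Vq, mem_cl, mem_plab]
        tauto
      rw [h4, ← hN] at h3
      exact h3
    have h3 : ∑ a : ZMod (2 * m + 1),
        κ * (ε / 2 * Y.card / N + ((((Y ∩ cl lab (plab i)) \ C) ∩ Vq lab a i).card : ℝ)) =
        κ * (ε / 2 * y + (((Y ∩ cl lab (plab i)) \ C).card : ℝ)) := by
      rw [← mul_sum, sum_add_distrib, sum_const, nsmul_eq_mul, card_univ, card_zmod]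
      have h4 := sum_cells lab i ((Y ∩ cl lab (plab i)) \ C)
      have h5 : (∑ a : ZMod (2 * m + 1),
          ((((Y ∩ cl lab (plab i)) \ C) ∩ Vq lab a i).card : ℝ)) =
          (((Y ∩ cl lab (plab i)) \ C).card : ℝ) := by
        have h6 : ((Y ∩ cl lab (plab i)) \ C) ∩ cl lab (plab i) =
            (Y ∩ cl lab (plab i)) \ C := by
          ext v
          simp only [mem_sdiff, mem_inter]
          tauto
        rw [h6] at h4
        exact_mod_cast h4
      rw [h5]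
      congr 2
      rw [hN, hy]
      have h7 : (0 : ℝ) < 2 * (m : ℝ) + 1 := by positivity
      push_cast
      field_simp
    have h4 := sum_le_sum (s := univ) fun a _ => h2 a
    rw [h3] at h4
    have h5 : κ * (ε / 2 * y + (((Y ∩ cl lab (plab i)) \ C).card : ℝ)) ≤
        κ * (ε / 2 * y + ε / 2 * y) :=
      mul_le_mul_of_nonneg_left (by linarith) hκ0.le
    have h6 : (1 + 2 * κ) * ε * y = ε / 2 * y + κ * (ε / 2 * y + ε / 2 * y) +
        (ε / 2 * y + κ * (ε * y)) := by ring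
    have h7 : 0 ≤ κ * (ε * y) := by positivity
    rw [h6]
    linarith only [h1, h4, h5, hsd, hsd1, hsd2, h7, hεy]
  -- used and deep
  have hb2 : (1 + hh / 2) * ((C.filter (fun v => Deep g' G d (3 * (2 * m + 1))
      (Vq lab (ce (lab v)) i) C v ∧ ∃ a, ∃ j < lg, v ∈ Oi a j)).card : ℝ) ≤ (C.card : ℝ) := by
    have hsub : C.filter (fun v => Deep g' G d (3 * (2 * m + 1)) (Vq lab (ce (lab v)) i) C v ∧
        ∃ a, ∃ j < lg, v ∈ Oi a j) ⊆ (univ : Finset (ZMod (2 * m + 1))).biUnion fun a =>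
          (C ∩ Vq lab a i).filter (fun z => Deep g' G d (3 * (2 * m + 1)) (Vq lab a i) C z ∧
            ∃ j < lg, z ∈ Oi a j) := by
      intro v hv
      obtain ⟨h1, h2, a, j, hj, h3⟩ := mem_filter.mp hv
      obtain ⟨Cs', -, h4, -⟩ := hO a j hj
      have h5 : v ∈ Vq lab a i := (h4 v h3).1
      have h6 : ce (lab v) = a := (mem_Vq.mp h5).1
      subst h6
      exact mem_biUnion.mpr ⟨_, mem_univ _, mem_filter.mpr ⟨mem_inter.mpr ⟨h1, h5⟩, h2, j, hj, h3⟩⟩
    have h1 : ((C.filter (fun v => Deep g' G d (3 * (2 * m + 1)) (Vq lab (ce (lab v)) i) C v ∧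
        ∃ a, ∃ j < lg, v ∈ Oi a j)).card : ℝ) ≤ ∑ a : ZMod (2 * m + 1),
        (((C ∩ Vq lab a i).filter (fun z => Deep g' G d (3 * (2 * m + 1)) (Vq lab a i) C z ∧
            ∃ j < lg, z ∈ Oi a j)).card : ℝ) := by
      have h2 := (card_le_card hsub).trans card_biUnion_le
      exact_mod_cast h2
    have h2 : (∑ a : ZMod (2 * m + 1), ((C ∩ Vq lab a i).card : ℝ)) = (C.card : ℝ) := by
      have h3 := sum_cells lab i C
      rw [hCC] at h3
      exact_mod_cast h3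
    calc _ ≤ (1 + hh / 2) * ∑ a : ZMod (2 * m + 1),
        (((C ∩ Vq lab a i).filter (fun z => Deep g' G d (3 * (2 * m + 1)) (Vq lab a i) C z ∧
            ∃ j < lg, z ∈ Oi a j)).card : ℝ) := mul_le_mul_of_nonneg_left h1 (by positivity)
      _ = ∑ a : ZMod (2 * m + 1), (1 + hh / 2) *
        (((C ∩ Vq lab a i).filter (fun z => Deep g' G d (3 * (2 * m + 1)) (Vq lab a i) C z ∧
            ∃ j < lg, z ∈ Oi a j)).card : ℝ) := by rw [mul_sum]
      _ ≤ ∑ a : ZMod (2 * m + 1), ((C ∩ Vq lab a i).card : ℝ) := by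
          refine sum_le_sum fun a _ => ?_
          exact used_deepH hGROW hg hgh hh1 hg' hR hgR Hs Ds Dm κh (3 * (2 * m + 1)) (by omega)
            (fun j => BH_mono (hHost.bh2 κh j) (by linarith)) (hHost.rat κh) (hHost.ratb κh)
            (Vq lab a i) C (fun j v => cell_degI (hHost.lb2 κh j)
              (hHost.bh2 κh j) hε0g hσN a i v) lg dd (hi a) (Oi a)
            hlgN hbdd (hO a)
      _ = _ := h2
  -- conclusion
  have hsum : ((C.filter (fun z => inM (lab z))).card : ℝ) ≤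
      ((C.filter (fun v => inM (lab v) ∧ ∀ a, ∀ j < lg, v ∉ Oi a j)).card : ℝ) +
      ((C.filter (fun v => ¬ Deep g' G d (3 * (2 * m + 1))
        (Vq lab (ce (lab v)) i) C v)).card : ℝ) +
      ((C.filter (fun v => Deep g' G d (3 * (2 * m + 1)) (Vq lab (ce (lab v)) i) C v ∧
        ∃ a, ∃ j < lg, v ∈ Oi a j)).card : ℝ) := by
    have hsub : C.filter (fun z => inM (lab z)) ⊆
        ((C.filter (fun v => inM (lab v) ∧ ∀ a, ∀ j < lg, v ∉ Oi a j)) ∪
        (C.filter (fun v => ¬ Deep g' G d (3 * (2 * m + 1)) (Vq lab (ce (lab v)) i) C v))) ∪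
        (C.filter (fun v => Deep g' G d (3 * (2 * m + 1)) (Vq lab (ce (lab v)) i) C v ∧
          ∃ a, ∃ j < lg, v ∈ Oi a j)) := by
      intro v hv
      obtain ⟨h1, h2⟩ := mem_filter.mp hv
      by_cases hD : Deep g' G d (3 * (2 * m + 1)) (Vq lab (ce (lab v)) i) C v
      · by_cases hu : ∃ a, ∃ j < lg, v ∈ Oi a j
        · exact mem_union_right _ (mem_filter.mpr ⟨h1, hD, hu⟩)
        · push Not at hu
          exact mem_union_left _ (mem_union_left _ (mem_filter.mpr ⟨h1, h2, hu⟩))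
      · exact mem_union_left _ (mem_union_right _ (mem_filter.mpr ⟨h1, hD⟩))
    have h1 := (card_le_card hsub).trans ((card_union_le _ _).trans
      (Nat.add_le_add_right (card_union_le _ _) _))
    exact_mod_cast h1
  exact final_ineq2 hh0 hh1 hκ0 hε0.le hε1 hlg hΛ0 hx1 hb1 (Nat.cast_nonneg _) hb2 hcv
    (Nat.cast_nonneg _) hsum

end Pool.Agent.Work.MP_db9399_hc.helper34
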